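import Pool.Agent.N53.KM.Two
import Pool.Agent.N999.ORB.Tw
import Pool.Agent.N24.RW.Crit
import Pool.Agent.N53.CF.All

/-!
# Twists along the convergents of continued fraction normal numbers: no sections

For a prime `ℓ`, `m = ℓ^j` with `j ≥ 1`, integers `a`, `b` and a polynomial `g ∈ ℤ[x]`, such that
`g(x^m)` has no multiple roots and degree at least 3, let `C_{a,b}` be the smooth projective curve
`b y^ℓ = g(a x^m)`.

Let `α ∈ (0,1)` be an irrational number which is *continued fraction normal*: the orbit of `α` under the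
Gauss map `x ↦ 1/x - ⌊1/x⌋` is distributed according to the Gauss measure `dx/((1+x) log 2)`, that is,
every block of partial quotients has the frequency of Gauss and Kuzmin. Almost all numbers are continued
fraction normal, and explicit ones are known (Adler, Keane, Smorodinsky). Let `p_n/q_n` be the
convergents of `α`, the best rational approximations.

**Theorem.**  Let `α` be continued fraction normal. For all `ℓ`, `j` and `g` as above, `a(n) = p_n` or
`a(n) = q_n`, and `b(n)` equal to the other one of `p_n`, `q_n` or constant and not zero, either all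
curves `b(n) y^ℓ = g(a x^m)`, `a ≠ 0`, have a rational point, or for all `n` outside a set of density zero
the following holds for the curve `C : b(n) y^ℓ = g(a(n) x^m)` and for all number fields `K` of degree
prime to `ℓ`: the fundamental group of `C` over `K`, and of every open subcurve, has no section, and the
geometrically pro-`ℓ` fundamental group of `C` over `K` has no section either.

So the section conjecture holds for 100 % of the curves whose coefficients are the convergents of one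
given number. Only `O(log X)` integers up to `X` occur.

The local theorem (no sections over a number field of degree prime to `ℓ` if a prime of a certain set
of primes divides `a` exactly once) is the one of `ThinTwists` (helper680), which uses the local theorem
`TwistsByRotations` of the starting library.  New is the engine: the convergents of a continued fraction
normal number avoid (up to density zero) every set of integral vectors which is negligible in the product
of the `ℤ_p × ℤ_p`, because the extension of the Gauss map by `GL_2(ℤ/q)` is ergodic and the upper bound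
for the frequencies can be read off from long blocks.

The fundamental group is described through valuations.  Let `U` be a smooth geometrically connected
curve over `k` with function field `F`, let `Ω` be an algebraic closure of `F`, and let `F_U` be the
maximal extension of `F` inside `Ω` which is unramified over the closed points of `U`, that is, over
their local rings, which are valuation rings of `F`.  Then `π₁(U) = Gal(F_U/F)`, and the map
`π₁(U) → G_k` is the restriction of automorphisms to the algebraic closure of `k` in `Ω`.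
-/

set_option autoImplicit false

open Polynomial NumberField MeasureTheory Filter Topology
open Pool.Agent.N53.CF (CFNormal cvg)
open Pool.Agent.W811.Stu (dig)

namespace Pool.Agent.Results.MP_c1dca2_ag.ConvergentsOfNormalNumbers

section definitions

variable (ℓ : ℕ) (k F Ω : Type) [Field k] [Field F] [Field Ω] [Algebra k F] [Algebra F Ω]
  [Algebra k Ω]

/-- The inertia group of the valuation ring `W` of `Ω`, as a subgroup of `Gal(Ω/F)`: the
automorphisms of `Ω` over `F` that map `W` onto itself and act as the identity on its residue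
field. -/
noncomputable def inertia (W : ValuationSubring Ω) : Subgroup (Ω ≃ₐ[F] Ω) :=
  (W.inertiaSubgroup F).map (W.decompositionSubgroup F).subtype

/-- `F_U`, for a set `U` of valuation rings of `F`: the elements of `Ω` fixed by the inertia groups
of all valuation rings `W` of `Ω` with `W ∩ F ∈ U`.  If `Ω` is an algebraic closure of a field `F`
of characteristic zero, this is the maximal extension of `F` in `Ω` unramified over `U`. -/
noncomputable def unramified (U : Set (ValuationSubring F)) : IntermediateField F Ω :=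
  ⨅ W : {W : ValuationSubring Ω // W.comap (algebraMap F Ω) ∈ U},
    IntermediateField.fixedField (inertia F Ω W.1)

/-- `k̄ F`, the compositum of `F` and of the algebraic closure of `k` in `Ω`. -/
noncomputable def geomField : IntermediateField F Ω :=
  IntermediateField.adjoin F (algebraicClosure k Ω : Set Ω)

/-- The algebraic extension `L` of `K` in `Ω` is unramified at all valuation rings of `Ω` that
contain `k`: every nonzero element of `L` has the same valuation as an element of `K`.  (If `K` is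
a function field of one variable over the algebraic closure of `k` and `k` has characteristic zero,
then this says that `L/K` is unramified over all points of the smooth projective curve.) -/
def Unramified {k K Ω : Type} [Field k] [Field K] [Field Ω] [Algebra k Ω] [Algebra K Ω]
    (L : IntermediateField K Ω) : Prop :=
  ∀ W : ValuationSubring Ω, (∀ c : k, algebraMap k Ω c ∈ W) → ∀ z ∈ L, z ≠ 0 →
    ∃ t : K, t ≠ 0 ∧ z / algebraMap K Ω t ∈ W ∧ (z / algebraMap K Ω t)⁻¹ ∈ W

/-- `L/K` is a finite Galois extension whose degree is a power of `ℓ`. -/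
def FiniteProEll (ℓ : ℕ) {K Ω : Type} [Field K] [Field Ω] [Algebra K Ω]
    (L : IntermediateField K Ω) : Prop :=
  FiniteDimensional K L ∧ IsGalois K L ∧ ∃ m : ℕ, Module.finrank K L = ℓ ^ m

/-- The maximal unramified pro-`ℓ` extension of `K` in `Ω`: the compositum of the finite Galois
extensions of `K` whose degree is a power of `ℓ` and which are unramified. -/
noncomputable def maxProEll (ℓ : ℕ) (k K Ω : Type) [Field k] [Field K] [Field Ω] [Algebra k Ω]
    [Algebra K Ω] : IntermediateField K Ω :=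
  ⨆ L : {L : IntermediateField K Ω // FiniteProEll ℓ L ∧ Unramified (k := k) L}, L.1

/-- `M`, the maximal unramified pro-`ℓ` extension of `k̄ F` in `Ω`, as an extension of `F`.  If `F` is
the function field of the smooth projective curve `C`, then `Gal(M/F)` is the geometrically pro-`ℓ`
fundamental group of `C`. -/
noncomputable def proEllField : IntermediateField F Ω :=
  (maxProEll ℓ k (geomField k F Ω) Ω).restrictScalars F

/-- The map `τ : M → M` acts as `σ : K → K` on the elements that the fields `K` and `M` have in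
common when they are regarded as subfields of `Ω` through `i` and `j`. -/
def ActsAs {K M Ω : Type} [Field K] [Field M] [Field Ω] (i : K →+* Ω) (j : M →+* Ω) (σ : K → K)
    (τ : M → M) : Prop :=
  ∀ c z, j z = i c → j (τ z) = i (σ c)

/-- Let `k ⊆ K ⊆ Ω` and `F ⊆ N ⊆ Ω` be fields.  A splitting of `Gal(N/F) → Gal(K/k)`: a continuous
homomorphism `s` from `Gal(K/k)` to `Gal(N/F)` such that `s(σ)` acts as `σ` on the elements of
`K ∩ N`. -/
structure Splitting (K N : Type) [Field K] [Field N] [Algebra k K] [Algebra F N] [Algebra K Ω]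
    [Algebra N Ω] where
  /-- the homomorphism `Gal(K/k) → Gal(N/F)` -/
  toHom : (K ≃ₐ[k] K) →* (N ≃ₐ[F] N)
  cont : Continuous toHom
  compat : ∀ σ : K ≃ₐ[k] K, ActsAs (algebraMap K Ω) (algebraMap N Ω) σ (toHom σ)

end definitions

section curves

/-- `F = k(x, y)` is the function field of the curve `b y^ℓ = g(a x^m)`. -/
def IsFunctionField {k F : Type} [Field k] [Field F] [Algebra k F] (ℓ m : ℕ) (g : k[X]) (a b : k)
    (x y : F) : Prop :=
  Transcendental k x ∧ algebraMap k F b * y ^ ℓ = aeval (algebraMap k F a * x ^ m) g ∧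
    IntermediateField.adjoin k {x, y} = (⊤ : IntermediateField k F)

/-- Let `F` be the function field of the smooth projective curve `C : b y^ℓ = g(a x^m)` over `K`, let
`Ω` be an algebraic closure of `F` and let `K̄` be the algebraic closure of `K` in `Ω`.  There is no
section `G_K → Gal(M/F)` of the geometrically pro-`ℓ` fundamental group of `C`, and for every set `U`
of valuation rings of `F` over `K` there is no section `G_K → Gal(F_U/F)`.  Such `U` are given by `C`
and all its open subcurves. -/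
def NoSections {K : Type} [Field K] (ℓ m : ℕ) (g : K[X]) (a b : K) : Prop :=
  ∀ (F Ω : Type) [Field F] [Field Ω] [Algebra K F] [Algebra F Ω] [Algebra K Ω]
    [IsScalarTower K F Ω] [IsAlgClosure F Ω] (x y : F), IsFunctionField ℓ m g a b x y →
    IsEmpty (Splitting K F Ω (algebraicClosure K Ω) (proEllField ℓ K F Ω)) ∧
    ∀ U : Set (ValuationSubring F), (∀ O ∈ U, ∀ c : K, algebraMap K F c ∈ O) →
      IsEmpty (Splitting K F Ω (algebraicClosure K Ω) (unramified F Ω U))

/-- The smooth projective curve `b y^ℓ = g(a x^m)`, where `ℓ` divides `m`, has a rational point: a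
point in the affine part, or a point at infinity.  The points at infinity correspond to the values
`z` of the function `y / x^(m deg g / ℓ)`, with `b z^ℓ = lc(g) a^(deg g)`. -/
def HasRationalPoint (ℓ m : ℕ) (g : ℤ[X]) (a b : ℤ) : Prop :=
  (∃ x y : ℚ, b * y ^ ℓ = aeval (a * x ^ m) g) ∨
    ∃ z : ℚ, b * z ^ ℓ = g.leadingCoeff * (a : ℚ) ^ g.natDegree

end curves

/-- Over some number field `K` of degree prime to `ℓ`, the fundamental group of an open subcurve of the
curve `C : b y^ℓ = g(a x^m)`, `m = ℓ^j`, or the geometrically pro-`ℓ` fundamental group of `C`, has a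
section. -/
def SectionOverSomeField (ℓ j : ℕ) (g : ℤ[X]) (b a : ℤ) : Prop :=
  ¬ ∀ (K : Type) [Field K] [NumberField K], ¬ ℓ ∣ Module.finrank ℚ K →
    NoSections ℓ (ℓ ^ j) (g.map (Int.castRingHom K)) (a : K) (b : K)

lemma iSup_congr_prop {α : Type} [CompleteLattice α] {P Q : α → Prop} (h : ∀ L, P L ↔ Q L) :
    (⨆ L : {L // P L}, L.1) = ⨆ L : {L // Q L}, L.1 := by
  have h1 : P = Q := funext fun L => propext (h L)
  subst h1
  rfl

lemma proEll_eq (ℓ : ℕ) (k F Ω : Type) [Field k] [Field F] [Field Ω] [Algebra k F] [Algebra F Ω]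
    [Algebra k Ω] : proEllField ℓ k F Ω = Pool.Agent.Y157.PS.geomPro ℓ k F Ω := by
  unfold proEllField Pool.Agent.Y157.PS.geomPro maxProEll Pool.Agent.Y157.PS.maxPro
  congr 1
  refine iSup_congr_prop fun L => ?_
  constructor
  · rintro ⟨⟨h1, h2, h3⟩, h4⟩
    refine ⟨⟨h1, h2, h3⟩, fun W hW z hz hz0 => ?_⟩
    obtain ⟨t, ht, h5, h6⟩ := h4 W hW z hz hz0
    exact ⟨t, ht, div_ne_zero hz0 ((_root_.map_ne_zero _).2 ht), h5, h6⟩
  · rintro ⟨⟨h1, h2, h3⟩, h4⟩
    refine ⟨⟨h1, h2, h3⟩, fun W hW z hz hz0 => ?_⟩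
    obtain ⟨t, ht, -, h5, h6⟩ := h4 W hW z hz hz0
    exact ⟨t, ht, h5, h6⟩

/-- the local obstruction at `p` -/
lemma noSections_of {K : Type} [Field K] [NumberField K] {ℓ j p : ℕ} [Fact ℓ.Prime] (hj : 1 ≤ j)
    (g : ℤ[X]) (b : ℤ) (h3 : 3 ≤ ℓ ^ j * g.natDegree) (hg : Pool.Agent.N680.TH.GoodP ℓ j g b p)
    (hK : ¬ ℓ ∣ Module.finrank ℚ K) (a : ℤ) (ha : Pool.Agent.N680.TH.Once p a) :
    NoSections ℓ (ℓ ^ j) (g.map (Int.castRingHom K)) (a : K) (b : K) := by
  intro F Ω _ _ _ _ _ _ _ x y hxyF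
  obtain ⟨hx, hxy, hF⟩ := hxyF
  have hcl : IsAlgClosed Ω := IsAlgClosure.isAlgClosed F
  have halg : Algebra.IsAlgebraic F Ω := IsAlgClosure.isAlgebraic
  have h3' : 3 ≤ (expand ℤ (ℓ ^ j) g).natDegree := by
    rw [natDegree_expand, mul_comm]
    exact h3
  have hb : b ≠ 0 := by
    intro h
    apply hg.pb
    rw [h]
    exact dvd_zero _
  have hFx := Pool.Agent.R925.L.alg_eqn (Fact.out : ℓ.Prime).pos _ _ _
    (Int.cast_ne_zero.2 hb : (b : K) ≠ 0) x y hxy hF
  have hle : ∀ U : Set (ValuationSubring F), (∀ O ∈ U, ∀ c : K, algebraMap K F c ∈ O) →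
      Pool.Agent.Y157.PS.geomPro ℓ K F Ω ≤ unramified F Ω U := fun U hU =>
    (Pool.Agent.Y157.PS.a_ind ℓ K F Ω x hx hFx U hU).1
  refine ⟨⟨fun s => ?_⟩, fun U hU => ⟨fun s => ?_⟩⟩
  · exact Pool.Agent.N680.TH.no_section hj g b h3' hg hK a ha.1 ha.2 x y hx hxy hF _
      (proEll_eq ℓ K F Ω).ge s.toHom s.cont fun σ c z hz => s.compat σ c z hz
  · exact Pool.Agent.N680.TH.no_section hj g b h3' hg hK a ha.1 ha.2 x y hx hxy hF _
      (hle U hU) s.toHom s.cont fun σ c z hz => s.compat σ c z hz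

/-- a rational point with `x = 0` -/
lemma point_zero {ℓ m : ℕ} (hℓ : 0 < ℓ) (hm : 0 < m) (g : ℤ[X]) (b : ℤ) (hb : b ≠ 0) (c : ℤ)
    (hc : c ^ ℓ = g.coeff 0 * b ^ (ℓ - 1)) (a : ℤ) : HasRationalPoint ℓ m g a b := by
  left
  have hbQ : (b : ℚ) ≠ 0 := Int.cast_ne_zero.2 hb
  refine ⟨0, c / b, ?_⟩
  have h1 : aeval ((a : ℚ) * 0 ^ m) g = (g.coeff 0 : ℚ) := by
    rw [zero_pow hm.ne', mul_zero, aeval_def, eval₂_at_zero]
    simp
  obtain ⟨l, rfl⟩ : ∃ l, ℓ = l + 1 := ⟨ℓ - 1, by omega⟩
  have h2 : (c : ℚ) ^ (l + 1) = g.coeff 0 * (b : ℚ) ^ l := by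
    rw [Nat.add_sub_cancel] at hc
    exact_mod_cast hc
  rw [h1, div_pow, h2, pow_succ]
  field_simp

/-- a rational point at infinity -/
lemma point_inf {ℓ m : ℕ} (hℓ : 0 < ℓ) (g : ℤ[X]) (b : ℤ) (hb : b ≠ 0) (hd : ℓ ∣ g.natDegree) (c : ℤ)
    (hc : c ^ ℓ = g.leadingCoeff * b ^ (ℓ - 1)) (a : ℤ) : HasRationalPoint ℓ m g a b := by
  right
  have hbQ : (b : ℚ) ≠ 0 := Int.cast_ne_zero.2 hb
  obtain ⟨d, hd⟩ := hd
  refine ⟨c / b * a ^ d, ?_⟩
  rw [mul_pow, ← pow_mul, mul_comm d ℓ, ← hd]
  obtain ⟨l, rfl⟩ : ∃ l, ℓ = l + 1 := ⟨ℓ - 1, by omega⟩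
  have h2 : (c : ℚ) ^ (l + 1) = g.leadingCoeff * (b : ℚ) ^ l := by
    rw [Nat.add_sub_cancel] at hc
    exact_mod_cast hc
  rw [div_pow, h2, pow_succ]
  field_simp

/-- the alternative for one family -/
lemma alternative {ℓ j : ℕ} [Fact ℓ.Prime] {g : ℤ[X]} {b : ℤ} (hj : 1 ≤ j) (hb : b ≠ 0)
    (hsep : ((expand ℤ (ℓ ^ j) g).map (Int.castRingHom ℚ)).Separable)
    (hdeg : 3 ≤ ℓ ^ j * g.natDegree) :
    (∀ a : ℤ, a ≠ 0 → HasRationalPoint ℓ (ℓ ^ j) g a b) ∨
      (Pool.Agent.N680.TH.Fam ℓ j g b ∧ ∀ a : ℤ, SectionOverSomeField ℓ j g b a →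
        ¬ ∃ p, Pool.Agent.N680.TH.GoodP ℓ j g b p ∧ Pool.Agent.N680.TH.Once p a) := by
  have hℓ : ℓ.Prime := Fact.out
  by_cases hn0 : ∀ c : ℤ, c ^ ℓ ≠ g.coeff 0 * b ^ (ℓ - 1)
  · by_cases hn1 : ℓ ∣ g.natDegree → ∀ c : ℤ, c ^ ℓ ≠ g.leadingCoeff * b ^ (ℓ - 1)
    · right
      have hg0 : g ≠ 0 := by
        rintro rfl
        rw [natDegree_zero, mul_zero] at hdeg
        omega
      refine ⟨⟨hℓ, hsep, hb, hg0, hn0, hn1⟩, fun a ha => ?_⟩
      rintro ⟨p, hgood, honce⟩
      exact ha fun K _ _ hK => noSections_of hj g b hdeg hgood hK _ honce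
    · left
      push Not at hn1
      obtain ⟨hd, c, hc⟩ := hn1
      exact fun a _ => point_inf hℓ.pos g b hb hd c hc a
  · left
    push Not at hn0
    obtain ⟨c, hc⟩ := hn0
    exact fun a _ => point_zero hℓ.pos (pow_pos hℓ.pos j) g b hb c hc a

/-- `E` has density zero in the natural numbers -/
def DensityZero (E : Set ℕ) : Prop :=
  Tendsto (fun N : ℕ => ({n : ℕ | n < N ∧ n ∈ E}.ncard : ℝ) / N) atTop (𝓝 0)

/-- The property of the sequence `x(n)` of integral vectors, for all families at once: let `a(n)` be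
one of its coordinates and let `b(n)` be constant and not zero, or another coordinate. Either all curves
`b(n) y^ℓ = g(a x^m)`, `m = ℓ^j`, `a ≠ 0`, have a rational point, or the curves
`b(n) y^ℓ = g(a(n) x^m)` have no sections over number fields of degree prime to `ℓ`, for all `n` outside
a set of density zero. -/
def AlmostNoSections {ι : Type} (x : ℕ → ι → ℤ) : Prop :=
  ∀ (ℓ : ℕ) [Fact ℓ.Prime] (j : ℕ) (g : ℤ[X]), 1 ≤ j →
    ((expand ℤ (ℓ ^ j) g).map (Int.castRingHom ℚ)).Separable → 3 ≤ ℓ ^ j * g.natDegree →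
    ∀ (i : ι) (b : ℕ → ℤ),
      ((∃ b₀ : ℤ, b₀ ≠ 0 ∧ ∀ n, b n = b₀) ∨ ∃ i' : ι, i' ≠ i ∧ ∀ n, b n = x n i') →
      (∀ (n : ℕ) (a : ℤ), a ≠ 0 → HasRationalPoint ℓ (ℓ ^ j) g a (b n)) ∨
        DensityZero {n | SectionOverSomeField ℓ j g (b n) (x n i)}

lemma DensityZero.mono {A B : Set ℕ} (h : A ⊆ B) (hB : DensityZero B) : DensityZero A :=
  Pool.Agent.N999.ORB.tend_mono (P := fun n => n ∈ A) (Q := fun n => n ∈ B) (fun _ hn => h hn) hB

/-- The exceptional sets. -/
def Exc1 {ι : Type} (ℓ j : ℕ) (g : ℤ[X]) (b : ℤ) (l : ι) : Set (ι → ℤ) :=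
  {c | ¬ ∃ p, Pool.Agent.N680.TH.GoodP ℓ j g b p ∧ Pool.Agent.N680.TH.Once p (c l)}

/-- The exceptional sets, two coordinates. -/
def Exc2 {ι : Type} (ℓ j : ℕ) (g : ℤ[X]) (l l' : ι) : Set (ι → ℤ) :=
  {c | ¬ ∃ p, Pool.Agent.N680.TH.GoodP ℓ j g (c l') p ∧ Pool.Agent.N680.TH.Once p (c l)}

lemma coeff_zero_ne {m : ℕ} (hm : 2 ≤ m) {g : ℤ[X]}
    (hsep : ((expand ℤ m g).map (Int.castRingHom ℚ)).Separable) : g.coeff 0 ≠ 0 := by
  intro h0
  have h1 : (X : ℤ[X]) ∣ g := X_dvd_iff.2 h0
  have h2 : (X : ℤ[X]) ^ m ∣ expand ℤ m g := by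
    have h3 := map_dvd (expand ℤ m) h1
    rwa [expand_X] at h3
  have h4 : (X : ℚ[X]) ^ m ∣ (expand ℤ m g).map (Int.castRingHom ℚ) := by
    have h5 := Polynomial.map_dvd (Int.castRingHom ℚ) h2
    rwa [Polynomial.map_pow, map_X] at h5
  have h6 : (X : ℚ[X]) * X ∣ (expand ℤ m g).map (Int.castRingHom ℚ) := by
    refine dvd_trans ?_ h4
    rw [← pow_two]
    exact pow_dvd_pow _ hm
  exact not_isUnit_X (hsep.squarefree _ h6)

/-- The exceptional set for two coordinates is pronull. -/
lemma pronull2 {ι : Type} [Fintype ι] (ℓ j : ℕ) (g : ℤ[X]) (l l' : ι) (hℓ : ℓ.Prime) (hj : 1 ≤ j)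
    (hl : l ≠ l') (hsep : ((expand ℤ (ℓ ^ j) g).map (Int.castRingHom ℚ)).Separable) :
    Pool.Agent.N24.RW.ProNull (Exc2 ℓ j g l l') := by
  classical
  have hm : 2 ≤ ℓ ^ j := hℓ.two_le.trans (Nat.le_self_pow (by omega) ℓ)
  have h0 := coeff_zero_ne hm hsep
  have hg0 : g ≠ 0 := by
    rintro rfl
    simp at h0
  obtain ⟨N, hN, hsepN⟩ := Pool.Agent.N680.TH.sep_mod _ hsep
  refine Pool.Agent.N53.KM.pronull_mono' ?_ (Pool.Agent.N53.KM.pronull_two Pool.Agent.N24.RW.t_CRIT
    hl hℓ (g.coeff 0) g.leadingCoeff N h0 (leadingCoeff_ne_zero.2 hg0) hN)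
  intro c hc
  rintro ⟨p, hp, k1, -, k3, k4, k5, k6, k7, k8, k9⟩
  refine hc ⟨p, ⟨hp, k1, k3, k5, fun k _ hk => hsepN k ?_, k6, fun _ => k7⟩, k8, k9⟩
  intro h0
  obtain ⟨u, w, huw⟩ := (Nat.prime_iff_prime_int.1 hp).coprime_iff_not_dvd.2 k4
  have h3 := congrArg (Int.cast : ℤ → k) huw
  push_cast at h3
  rw [hk, h0, mul_zero, mul_zero, add_zero] at h3
  exact zero_ne_one h3

/-- All exceptional sets at once. -/
structure Idx (ι : Type) where
  ℓ : ℕ
  j : ℕ
  g : ℤ[X]
  b : ℤ
  i : ι
  i' : ι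

/-- The index set is countable. -/
instance {ι : Type} [Countable ι] : Countable (Idx ι) := by
  have := Pool.Agent.N680.TH.countable_poly
  exact Function.Injective.countable (f := fun q : Idx ι => (q.ℓ, q.j, q.g, q.b, q.i, q.i'))
    (by
      rintro ⟨⟩ ⟨⟩ h
      simp only [Prod.mk.injEq] at h
      obtain ⟨rfl, rfl, rfl, rfl, rfl, rfl⟩ := h
      rfl)

/-- the empty set -/
lemma pronull_empty {ι : Type} [Fintype ι] : Pool.Agent.N24.RW.ProNull (∅ : Set (ι → ℤ)) := by
  intro M _ ε hε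
  refine ⟨1, one_pos, Nat.coprime_one_left M, ?_⟩
  rw [Set.image_empty, Set.ncard_empty, Nat.cast_zero]
  positivity

lemma pronull1 {ι : Type} [Fintype ι] (q : Idx ι) : Pool.Agent.N24.RW.ProNull
    {c : ι → ℤ | Pool.Agent.N680.TH.Fam q.ℓ q.j q.g q.b ∧ c ∈ Exc1 q.ℓ q.j q.g q.b q.i} := by
  classical
  by_cases h : Pool.Agent.N680.TH.Fam q.ℓ q.j q.g q.b
  · exact Pool.Agent.N53.KM.pronull_mono' (fun c hc => hc.2)
      (Pool.Agent.N999.ORB.pronull_fam Pool.Agent.N24.RW.t_CRIT q.ℓ q.j q.g q.b h q.i)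
  · exact Pool.Agent.N53.KM.pronull_mono' (fun c hc => (h hc.1).elim) pronull_empty

lemma pronull2' {ι : Type} [Fintype ι] (q : Idx ι) : Pool.Agent.N24.RW.ProNull
    {c : ι → ℤ | (q.ℓ.Prime ∧ 1 ≤ q.j ∧ q.i ≠ q.i' ∧
      ((expand ℤ (q.ℓ ^ q.j) q.g).map (Int.castRingHom ℚ)).Separable) ∧
      c ∈ Exc2 q.ℓ q.j q.g q.i q.i'} := by
  classical
  by_cases h : (q.ℓ.Prime ∧ 1 ≤ q.j ∧ q.i ≠ q.i' ∧
      ((expand ℤ (q.ℓ ^ q.j) q.g).map (Int.castRingHom ℚ)).Separable)
  · exact Pool.Agent.N53.KM.pronull_mono' (fun c hc => hc.2)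
      (pronull2 q.ℓ q.j q.g q.i q.i' h.1 h.2.1 h.2.2.1 h.2.2.2)
  · exact Pool.Agent.N53.KM.pronull_mono' (fun c hc => (h hc.1).elim) pronull_empty

/-- the set of times at which the sequence is in `B` has density zero -/
def Rare {ι : Type} (x : ℕ → ι → ℤ) (B : Set (ι → ℤ)) : Prop :=
  Tendsto (fun N : ℕ => (({n : ℕ | n < N ∧ x n ∈ B}.ncard : ℕ) : ℝ) / (N : ℝ)) atTop (𝓝 0)

/-- From the exceptional sets to the curves. -/
lemma almost_of {ι : Type} {x : ℕ → ι → ℤ}
    (h1 : ∀ q : Idx ι, Rare x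
      {c : ι → ℤ | Pool.Agent.N680.TH.Fam q.ℓ q.j q.g q.b ∧ c ∈ Exc1 q.ℓ q.j q.g q.b q.i})
    (h2 : ∀ q : Idx ι, Rare x
      {c : ι → ℤ | (q.ℓ.Prime ∧ 1 ≤ q.j ∧ q.i ≠ q.i' ∧
        ((expand ℤ (q.ℓ ^ q.j) q.g).map (Int.castRingHom ℚ)).Separable) ∧
        c ∈ Exc2 q.ℓ q.j q.g q.i q.i'}) : AlmostNoSections x := by
  intro ℓ hℓ j g hj hsep hdeg i b hb
  rcases hb with ⟨b₀, hb₀, hb⟩ | ⟨i', hi, hb⟩
  · obtain rfl : b = fun _ => b₀ := funext hb
    rcases alternative hj hb₀ hsep hdeg with h | ⟨hF, h⟩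
    · exact Or.inl fun _ a ha => h a ha
    · right
      refine DensityZero.mono ?_ (h1 ⟨ℓ, j, g, b₀, i, i⟩)
      intro n hn
      exact ⟨hF, h _ hn⟩
  · obtain rfl : b = fun n => x n i' := funext hb
    right
    refine DensityZero.mono ?_ (h2 ⟨ℓ, j, g, 0, i, i'⟩)
    intro n hn
    refine ⟨⟨hℓ.out, hj, hi.symm, hsep⟩, ?_⟩
    rintro ⟨p, hgood, honce⟩
    exact hn fun K _ _ hK => noSections_of hj g _ hdeg hgood hK _ honce

/-- **Twists along convergents.**  Almost all numbers are continued fraction normal, and for every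
continued fraction normal number the convergents have the property `AlmostNoSections`: with
`(a, b) = (p_n, q_n)` or `(q_n, p_n)`, or one of `p_n`, `q_n` and fixed `b`, almost all twists of all
families have no sections over number fields of degree prime to `ℓ`. -/
theorem result : (∀ᵐ α ∂(volume.restrict (Set.Ioo (0 : ℝ) 1)), CFNormal α) ∧
    ∀ α : ℝ, CFNormal α → AlmostNoSections (cvg (dig α)) := by
  refine ⟨Pool.Agent.N53.CF.t_TYP, fun α hα => ?_⟩
  have hM : Pool.Agent.N53.CF.S_CF := Pool.Agent.N53.CF.main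
  exact almost_of (fun q => hM _ (pronull1 q) α hα) fun q => hM _ (pronull2' q) α hα

end Pool.Agent.Results.MP_c1dca2_ag.ConvergentsOfNormalNumbers
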