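import Pool.Agent.N999.ORB.Tw
import Pool.Agent.N24.RW.Crit
import Pool.Agent.N24.RW.Orb
import Pool.Agent.N24.RW.Erg
import Pool.Agent.N24.RW.Main

/-!
# Twists along random orbits of thin groups: no sections over all number fields of degree prime to `ℓ`

For a prime `ℓ`, `m = ℓ^j` with `j ≥ 1`, an integer `b ≠ 0` and a polynomial `g ∈ ℤ[x]`, such that
`g(x^m)` has no multiple roots and degree at least 3, let `C_a` be the smooth projective curve
`b y^ℓ = g(a x^m)`.

Let `s_0, …, s_k ∈ SL_r(ℤ)`, `r ≥ 2`, be matrices which generate `SL_r(ℤ/q)` for all `q` prime to some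
`q₀` (by strong approximation this holds for all generators of Zariski dense subgroups, also of thin
groups, that is, of infinite index), let `v ∈ ℤ^r` be a nonzero vector, and let `c(n)` be the `n`-th
point of the random orbit of `v`: `c(0) = v`, `c(n+1) = s_(w n) c(n)` with independent, uniformly
distributed `w n`.

**Theorem.**  For almost every infinite word `w` the following is true for all `ℓ`, `j`, `b` and `g` as
above and all coordinates `l`: either all curves `C_a`, `a ≠ 0`, have a rational point, or for all `n`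
outside a set of density zero the following holds for `a = c(n)_l` and for all number fields `K` of
degree prime to `ℓ`: the fundamental group of `C_a` over `K`, and of every open subcurve, has no
section, and the geometrically pro-`ℓ` fundamental group of `C_a` over `K` has no section either.

So the section conjecture holds over all these fields for almost all twists by the coordinates of a
random orbit, up to the families in which all members have a rational point.  Only a logarithmically
small proportion of the integers of size `e^(C n)` occurs in the orbit.  The condition on the degree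
of `K` cannot be omitted because `C_a` has points with `x = 0` over fields of degree `ℓ`.

The local theorem (no sections over a number field of degree prime to `ℓ` if a prime of a certain set
of primes, with divergent sum of reciprocals, divides `a` exactly once) is the one of `ThinTwists`
(helper680), which uses the local theorem `TwistsByRotations` of the starting library.  The theorem on
random orbits is the engine of helper24: the random walk on the orbit modulo `q` is equidistributed,
and almost all residue vectors have a coordinate with the local property.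

The fundamental group is described through valuations.  Let `U` be a smooth geometrically connected
curve over `k` with function field `F`, let `Ω` be an algebraic closure of `F`, and let `F_U` be the
maximal extension of `F` inside `Ω` which is unramified over the closed points of `U`, that is, over
their local rings, which are valuation rings of `F`.  Then `π₁(U) = Gal(F_U/F)`, and the map
`π₁(U) → G_k` is the restriction of automorphisms to the algebraic closure of `k` in `Ω`.
-/

set_option autoImplicit false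

open Polynomial NumberField MeasureTheory Filter Topology
open Pool.Agent.N24.RW (Walk orb words)

namespace Pool.Agent.Results.MP_c1dca2_ag.RandomOrbits

section definitions

variable (ℓ : ℕ) (k F Ω : Type) [Field k] [Field F] [Field Ω] [Algebra k F] [Algebra F Ω]
  [Algebra k Ω]

/-- The inertia group of the valuation ring `W` of `Ω`, as a subgroup of `Gal(Ω/F)`: the
automorphisms of `Ω` over `F` that map `W` onto itself and act as the identity on its residue
field. -/
noncomputable def inertia (W : ValuationSubring Ω) : Subgroup (Ω ≃ₐ[F] Ω) :=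
  (W.inertiaSubgroup F).map (W.decompositionSubgroup F).subtype

/-- `F_U`, for a set `U` of valuation rings of `F`: the elements of `Ω` fixed by the inertia groups
of all valuation rings `W` of `Ω` with `W ∩ F ∈ U`.  If `Ω` is an algebraic closure of a field `F`
of characteristic zero, this is the maximal extension of `F` in `Ω` unramified over `U`. -/
noncomputable def unramified (U : Set (ValuationSubring F)) : IntermediateField F Ω :=
  ⨅ W : {W : ValuationSubring Ω // W.comap (algebraMap F Ω) ∈ U},
    IntermediateField.fixedField (inertia F Ω W.1)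

/-- `k̄ F`, the compositum of `F` and of the algebraic closure of `k` in `Ω`. -/
noncomputable def geomField : IntermediateField F Ω :=
  IntermediateField.adjoin F (algebraicClosure k Ω : Set Ω)

/-- The algebraic extension `L` of `K` in `Ω` is unramified at all valuation rings of `Ω` that
contain `k`: every nonzero element of `L` has the same valuation as an element of `K`.  (If `K` is
a function field of one variable over the algebraic closure of `k` and `k` has characteristic zero,
then this says that `L/K` is unramified over all points of the smooth projective curve.) -/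
def Unramified {k K Ω : Type} [Field k] [Field K] [Field Ω] [Algebra k Ω] [Algebra K Ω]
    (L : IntermediateField K Ω) : Prop :=
  ∀ W : ValuationSubring Ω, (∀ c : k, algebraMap k Ω c ∈ W) → ∀ z ∈ L, z ≠ 0 →
    ∃ t : K, t ≠ 0 ∧ z / algebraMap K Ω t ∈ W ∧ (z / algebraMap K Ω t)⁻¹ ∈ W

/-- `L/K` is a finite Galois extension whose degree is a power of `ℓ`. -/
def FiniteProEll (ℓ : ℕ) {K Ω : Type} [Field K] [Field Ω] [Algebra K Ω]
    (L : IntermediateField K Ω) : Prop :=
  FiniteDimensional K L ∧ IsGalois K L ∧ ∃ m : ℕ, Module.finrank K L = ℓ ^ m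

/-- The maximal unramified pro-`ℓ` extension of `K` in `Ω`: the compositum of the finite Galois
extensions of `K` whose degree is a power of `ℓ` and which are unramified. -/
noncomputable def maxProEll (ℓ : ℕ) (k K Ω : Type) [Field k] [Field K] [Field Ω] [Algebra k Ω]
    [Algebra K Ω] : IntermediateField K Ω :=
  ⨆ L : {L : IntermediateField K Ω // FiniteProEll ℓ L ∧ Unramified (k := k) L}, L.1

/-- `M`, the maximal unramified pro-`ℓ` extension of `k̄ F` in `Ω`, as an extension of `F`.  If `F` is
the function field of the smooth projective curve `C`, then `Gal(M/F)` is the geometrically pro-`ℓ`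
fundamental group of `C`. -/
noncomputable def proEllField : IntermediateField F Ω :=
  (maxProEll ℓ k (geomField k F Ω) Ω).restrictScalars F

/-- The map `τ : M → M` acts as `σ : K → K` on the elements that the fields `K` and `M` have in
common when they are regarded as subfields of `Ω` through `i` and `j`. -/
def ActsAs {K M Ω : Type} [Field K] [Field M] [Field Ω] (i : K →+* Ω) (j : M →+* Ω) (σ : K → K)
    (τ : M → M) : Prop :=
  ∀ c z, j z = i c → j (τ z) = i (σ c)

/-- Let `k ⊆ K ⊆ Ω` and `F ⊆ N ⊆ Ω` be fields.  A splitting of `Gal(N/F) → Gal(K/k)`: a continuous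
homomorphism `s` from `Gal(K/k)` to `Gal(N/F)` such that `s(σ)` acts as `σ` on the elements of
`K ∩ N`. -/
structure Splitting (K N : Type) [Field K] [Field N] [Algebra k K] [Algebra F N] [Algebra K Ω]
    [Algebra N Ω] where
  /-- the homomorphism `Gal(K/k) → Gal(N/F)` -/
  toHom : (K ≃ₐ[k] K) →* (N ≃ₐ[F] N)
  cont : Continuous toHom
  compat : ∀ σ : K ≃ₐ[k] K, ActsAs (algebraMap K Ω) (algebraMap N Ω) σ (toHom σ)

end definitions

section curves

/-- `F = k(x, y)` is the function field of the curve `b y^ℓ = g(a x^m)`. -/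
def IsFunctionField {k F : Type} [Field k] [Field F] [Algebra k F] (ℓ m : ℕ) (g : k[X]) (a b : k)
    (x y : F) : Prop :=
  Transcendental k x ∧ algebraMap k F b * y ^ ℓ = aeval (algebraMap k F a * x ^ m) g ∧
    IntermediateField.adjoin k {x, y} = (⊤ : IntermediateField k F)

/-- Let `F` be the function field of the smooth projective curve `C : b y^ℓ = g(a x^m)` over `K`, let
`Ω` be an algebraic closure of `F` and let `K̄` be the algebraic closure of `K` in `Ω`.  There is no
section `G_K → Gal(M/F)` of the geometrically pro-`ℓ` fundamental group of `C`, and for every set `U`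
of valuation rings of `F` over `K` there is no section `G_K → Gal(F_U/F)`.  Such `U` are given by `C`
and all its open subcurves. -/
def NoSections {K : Type} [Field K] (ℓ m : ℕ) (g : K[X]) (a b : K) : Prop :=
  ∀ (F Ω : Type) [Field F] [Field Ω] [Algebra K F] [Algebra F Ω] [Algebra K Ω]
    [IsScalarTower K F Ω] [IsAlgClosure F Ω] (x y : F), IsFunctionField ℓ m g a b x y →
    IsEmpty (Splitting K F Ω (algebraicClosure K Ω) (proEllField ℓ K F Ω)) ∧
    ∀ U : Set (ValuationSubring F), (∀ O ∈ U, ∀ c : K, algebraMap K F c ∈ O) →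
      IsEmpty (Splitting K F Ω (algebraicClosure K Ω) (unramified F Ω U))

/-- The smooth projective curve `b y^ℓ = g(a x^m)`, where `ℓ` divides `m`, has a rational point: a
point in the affine part, or a point at infinity.  The points at infinity correspond to the values
`z` of the function `y / x^(m deg g / ℓ)`, with `b z^ℓ = lc(g) a^(deg g)`. -/
def HasRationalPoint (ℓ m : ℕ) (g : ℤ[X]) (a b : ℤ) : Prop :=
  (∃ x y : ℚ, b * y ^ ℓ = aeval (a * x ^ m) g) ∨
    ∃ z : ℚ, b * z ^ ℓ = g.leadingCoeff * (a : ℚ) ^ g.natDegree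

end curves

/-- Over some number field `K` of degree prime to `ℓ`, the fundamental group of an open subcurve of the
curve `C : b y^ℓ = g(a x^m)`, `m = ℓ^j`, or the geometrically pro-`ℓ` fundamental group of `C`, has a
section. -/
def SectionOverSomeField (ℓ j : ℕ) (g : ℤ[X]) (b a : ℤ) : Prop :=
  ¬ ∀ (K : Type) [Field K] [NumberField K], ¬ ℓ ∣ Module.finrank ℚ K →
    NoSections ℓ (ℓ ^ j) (g.map (Int.castRingHom K)) (a : K) (b : K)

lemma iSup_congr_prop {α : Type} [CompleteLattice α] {P Q : α → Prop} (h : ∀ L, P L ↔ Q L) :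
    (⨆ L : {L // P L}, L.1) = ⨆ L : {L // Q L}, L.1 := by
  have h1 : P = Q := funext fun L => propext (h L)
  subst h1
  rfl

lemma proEll_eq (ℓ : ℕ) (k F Ω : Type) [Field k] [Field F] [Field Ω] [Algebra k F] [Algebra F Ω]
    [Algebra k Ω] : proEllField ℓ k F Ω = Pool.Agent.Y157.PS.geomPro ℓ k F Ω := by
  unfold proEllField Pool.Agent.Y157.PS.geomPro maxProEll Pool.Agent.Y157.PS.maxPro
  congr 1
  refine iSup_congr_prop fun L => ?_
  constructor
  · rintro ⟨⟨h1, h2, h3⟩, h4⟩
    refine ⟨⟨h1, h2, h3⟩, fun W hW z hz hz0 => ?_⟩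
    obtain ⟨t, ht, h5, h6⟩ := h4 W hW z hz hz0
    exact ⟨t, ht, div_ne_zero hz0 ((_root_.map_ne_zero _).2 ht), h5, h6⟩
  · rintro ⟨⟨h1, h2, h3⟩, h4⟩
    refine ⟨⟨h1, h2, h3⟩, fun W hW z hz hz0 => ?_⟩
    obtain ⟨t, ht, -, h5, h6⟩ := h4 W hW z hz hz0
    exact ⟨t, ht, h5, h6⟩

/-- the local obstruction at `p` -/
lemma noSections_of {K : Type} [Field K] [NumberField K] {ℓ j p : ℕ} [Fact ℓ.Prime] (hj : 1 ≤ j)
    (g : ℤ[X]) (b : ℤ) (h3 : 3 ≤ ℓ ^ j * g.natDegree) (hg : Pool.Agent.N680.TH.GoodP ℓ j g b p)
    (hK : ¬ ℓ ∣ Module.finrank ℚ K) (a : ℤ) (ha : Pool.Agent.N680.TH.Once p a) :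
    NoSections ℓ (ℓ ^ j) (g.map (Int.castRingHom K)) (a : K) (b : K) := by
  intro F Ω _ _ _ _ _ _ _ x y hxyF
  obtain ⟨hx, hxy, hF⟩ := hxyF
  have hcl : IsAlgClosed Ω := IsAlgClosure.isAlgClosed F
  have halg : Algebra.IsAlgebraic F Ω := IsAlgClosure.isAlgebraic
  have h3' : 3 ≤ (expand ℤ (ℓ ^ j) g).natDegree := by
    rw [natDegree_expand, mul_comm]
    exact h3
  have hb : b ≠ 0 := by
    intro h
    apply hg.pb
    rw [h]
    exact dvd_zero _
  have hFx := Pool.Agent.R925.L.alg_eqn (Fact.out : ℓ.Prime).pos _ _ _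
    (Int.cast_ne_zero.2 hb : (b : K) ≠ 0) x y hxy hF
  have hle : ∀ U : Set (ValuationSubring F), (∀ O ∈ U, ∀ c : K, algebraMap K F c ∈ O) →
      Pool.Agent.Y157.PS.geomPro ℓ K F Ω ≤ unramified F Ω U := fun U hU =>
    (Pool.Agent.Y157.PS.a_ind ℓ K F Ω x hx hFx U hU).1
  refine ⟨⟨fun s => ?_⟩, fun U hU => ⟨fun s => ?_⟩⟩
  · exact Pool.Agent.N680.TH.no_section hj g b h3' hg hK a ha.1 ha.2 x y hx hxy hF _
      (proEll_eq ℓ K F Ω).ge s.toHom s.cont fun σ c z hz => s.compat σ c z hz
  · exact Pool.Agent.N680.TH.no_section hj g b h3' hg hK a ha.1 ha.2 x y hx hxy hF _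
      (hle U hU) s.toHom s.cont fun σ c z hz => s.compat σ c z hz

/-- a rational point with `x = 0` -/
lemma point_zero {ℓ m : ℕ} (hℓ : 0 < ℓ) (hm : 0 < m) (g : ℤ[X]) (b : ℤ) (hb : b ≠ 0) (c : ℤ)
    (hc : c ^ ℓ = g.coeff 0 * b ^ (ℓ - 1)) (a : ℤ) : HasRationalPoint ℓ m g a b := by
  left
  have hbQ : (b : ℚ) ≠ 0 := Int.cast_ne_zero.2 hb
  refine ⟨0, c / b, ?_⟩
  have h1 : aeval ((a : ℚ) * 0 ^ m) g = (g.coeff 0 : ℚ) := by
    rw [zero_pow hm.ne', mul_zero, aeval_def, eval₂_at_zero]
    simp
  obtain ⟨l, rfl⟩ : ∃ l, ℓ = l + 1 := ⟨ℓ - 1, by omega⟩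
  have h2 : (c : ℚ) ^ (l + 1) = g.coeff 0 * (b : ℚ) ^ l := by
    rw [Nat.add_sub_cancel] at hc
    exact_mod_cast hc
  rw [h1, div_pow, h2, pow_succ]
  field_simp

/-- a rational point at infinity -/
lemma point_inf {ℓ m : ℕ} (hℓ : 0 < ℓ) (g : ℤ[X]) (b : ℤ) (hb : b ≠ 0) (hd : ℓ ∣ g.natDegree) (c : ℤ)
    (hc : c ^ ℓ = g.leadingCoeff * b ^ (ℓ - 1)) (a : ℤ) : HasRationalPoint ℓ m g a b := by
  right
  have hbQ : (b : ℚ) ≠ 0 := Int.cast_ne_zero.2 hb
  obtain ⟨d, hd⟩ := hd
  refine ⟨c / b * a ^ d, ?_⟩
  rw [mul_pow, ← pow_mul, mul_comm d ℓ, ← hd]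
  obtain ⟨l, rfl⟩ : ∃ l, ℓ = l + 1 := ⟨ℓ - 1, by omega⟩
  have h2 : (c : ℚ) ^ (l + 1) = g.leadingCoeff * (b : ℚ) ^ l := by
    rw [Nat.add_sub_cancel] at hc
    exact_mod_cast hc
  rw [div_pow, h2, pow_succ]
  field_simp

/-- the alternative for one family -/
lemma alternative {ℓ j : ℕ} [Fact ℓ.Prime] {g : ℤ[X]} {b : ℤ} (hj : 1 ≤ j) (hb : b ≠ 0)
    (hsep : ((expand ℤ (ℓ ^ j) g).map (Int.castRingHom ℚ)).Separable)
    (hdeg : 3 ≤ ℓ ^ j * g.natDegree) :
    (∀ a : ℤ, a ≠ 0 → HasRationalPoint ℓ (ℓ ^ j) g a b) ∨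
      (Pool.Agent.N680.TH.Fam ℓ j g b ∧ ∀ a : ℤ, SectionOverSomeField ℓ j g b a →
        ¬ ∃ p, Pool.Agent.N680.TH.GoodP ℓ j g b p ∧ Pool.Agent.N680.TH.Once p a) := by
  have hℓ : ℓ.Prime := Fact.out
  by_cases hn0 : ∀ c : ℤ, c ^ ℓ ≠ g.coeff 0 * b ^ (ℓ - 1)
  · by_cases hn1 : ℓ ∣ g.natDegree → ∀ c : ℤ, c ^ ℓ ≠ g.leadingCoeff * b ^ (ℓ - 1)
    · right
      have hg0 : g ≠ 0 := by
        rintro rfl
        rw [natDegree_zero, mul_zero] at hdeg
        omega
      refine ⟨⟨hℓ, hsep, hb, hg0, hn0, hn1⟩, fun a ha => ?_⟩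
      rintro ⟨p, hgood, honce⟩
      exact ha fun K _ _ hK => noSections_of hj g b hdeg hgood hK _ honce
    · left
      push Not at hn1
      obtain ⟨hd, c, hc⟩ := hn1
      exact fun a _ => point_inf hℓ.pos g b hb hd c hc a
  · left
    push Not at hn0
    obtain ⟨c, hc⟩ := hn0
    exact fun a _ => point_zero hℓ.pos (pow_pos hℓ.pos j) g b hb c hc a

/-- **Twists along random orbits.**  For almost every word `w`, for all families of twists
`b y^ℓ = g(a x^m)`, `m = ℓ^j`, at once, either all members with `a ≠ 0` have a rational point, or, for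
every coordinate `l`, the members whose parameter `a` is the coordinate `l` of the `n`-th point of the
random orbit have no sections over number fields of degree prime to `ℓ`, for all `n` outside a set of
density zero. -/
theorem result (ι : Type) [Fintype ι] [DecidableEq ι] (hι : 2 ≤ Fintype.card ι) (W : Walk ι)
    (v : ι → ℤ) (hv : v ≠ 0) :
    ∀ᵐ w ∂(words W.m), ∀ (ℓ : ℕ) [Fact ℓ.Prime] (j : ℕ) (g : ℤ[X]) (b : ℤ), 1 ≤ j → b ≠ 0 →
      ((expand ℤ (ℓ ^ j) g).map (Int.castRingHom ℚ)).Separable → 3 ≤ ℓ ^ j * g.natDegree →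
      (∀ a : ℤ, a ≠ 0 → HasRationalPoint ℓ (ℓ ^ j) g a b) ∨
        ∀ l : ι, Tendsto (fun N : ℕ =>
          ({n : ℕ | n < N ∧ SectionOverSomeField ℓ j g b (orb W v w n l)}.ncard : ℝ) / N) atTop
            (𝓝 0) := by
  filter_upwards [Pool.Agent.N999.ORB.ae_fam Pool.Agent.N24.RW.t_CRIT
    (Pool.Agent.N24.RW.t_MAIN Pool.Agent.N24.RW.t_ORB Pool.Agent.N24.RW.t_ERG) hι W v hv] with w hw
  intro ℓ hℓ j g b hj hb hsep hdeg
  rcases alternative hj hb hsep hdeg with h | ⟨hF, h⟩
  · exact Or.inl h
  · right
    intro l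
    exact Pool.Agent.N999.ORB.tend_mono (fun n hn => h _ hn) (hw ℓ j g b hF l)

end Pool.Agent.Results.MP_c1dca2_ag.RandomOrbits
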