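import Pool.Agent.N680.TH.Fin

/-!
# Thin families of twists: no sections over all number fields of degree prime to `ℓ`

Let `P(t) = ∑ α_i t^(θ_i)` be a generalised polynomial (a finite sum of real powers with real
coefficients) whose leading exponent is positive and not an integer and whose leading coefficient is
positive, for instance `t^(√2)` or `π t^(3/10)`, and let `a(n)` be the integral part of `P(n)`.

For a prime `ℓ`, `m = ℓ^j` with `j ≥ 1`, an integer `b ≠ 0` and a polynomial `g ∈ ℤ[x]`, such that
`g(x^m)` has no multiple roots and degree at least 3, let `C_a` be the smooth projective curve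
`b y^ℓ = g(a x^m)`.

**Theorem.**  There is a set `E` of natural numbers, of density zero in the natural numbers and in the
prime numbers, which depends only on `P`, such that for all `ℓ`, `j`, `b` and `g` as above either all
curves `C_a`, `a ≠ 0`, have a rational point, or for all but finitely many `n ∉ E` the following is
true for all number fields `K` of degree prime to `ℓ`: the fundamental group of `C_(a(n))` over `K`,
and of every open subcurve, has no section, and the geometrically pro-`ℓ` fundamental group of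
`C_(a(n))` over `K` has no section either.

So outside a set of density zero, up to finitely many `n`, the existence of a section over one of these
fields `K` implies the existence of a rational point, and in the second case the curves `C_(a(n))`
satisfy the section conjecture over all `K`.  The condition on the degree of `K` cannot be omitted
because `C_a` has points with `x = 0` over fields of degree `ℓ`.

The proof uses the local theorem `TwistsByRotations` of the starting library: at a prime of `K` where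
the valuation of `a` is not divisible by `m` the local section is the section of a point over `x = 0`
or `x = ∞`.  If neither `b y^ℓ = g(0)` nor (for `ℓ ∣ deg g`) `b z^ℓ = lc(g)` has a rational solution,
then by Chebotarev's theorem there is a set of prime numbers `p ≡ 1 (mod ℓ)`, with divergent sum of
reciprocals, modulo which these equations have no solutions; the same is true over an extension of
`𝔽_p` of degree prime to `ℓ`.  If such a `p` divides `a` exactly once and the degree of `K` is prime to
`ℓ`, there is a prime of `K` above `p` whose ramification index and degree are prime to `ℓ`, and there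
are no sections.  By the equidistribution of `a(n)` modulo `p^2 q^2` (engine of helper666) and Turán's
method almost all `a(n)` are divisible exactly once by a prime of the set.

The fundamental group is described through valuations.  Let `U` be a smooth geometrically connected
curve over `k` with function field `F`, let `Ω` be an algebraic closure of `F`, and let `F_U` be the
maximal extension of `F` inside `Ω` which is unramified over the closed points of `U`, that is, over
their local rings, which are valuation rings of `F`.  Then `π₁(U) = Gal(F_U/F)`, and the map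
`π₁(U) → G_k` is the restriction of automorphisms to the algebraic closure of `k` in `Ω`.
-/

set_option autoImplicit false

open Polynomial NumberField

namespace Pool.Agent.Results.MP_c1dca2_ag.ThinTwists

section definitions

variable (ℓ : ℕ) (k F Ω : Type) [Field k] [Field F] [Field Ω] [Algebra k F] [Algebra F Ω]
  [Algebra k Ω]

/-- The inertia group of the valuation ring `W` of `Ω`, as a subgroup of `Gal(Ω/F)`: the
automorphisms of `Ω` over `F` that map `W` onto itself and act as the identity on its residue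
field. -/
noncomputable def inertia (W : ValuationSubring Ω) : Subgroup (Ω ≃ₐ[F] Ω) :=
  (W.inertiaSubgroup F).map (W.decompositionSubgroup F).subtype

/-- `F_U`, for a set `U` of valuation rings of `F`: the elements of `Ω` fixed by the inertia groups
of all valuation rings `W` of `Ω` with `W ∩ F ∈ U`.  If `Ω` is an algebraic closure of a field `F`
of characteristic zero, this is the maximal extension of `F` in `Ω` unramified over `U`. -/
noncomputable def unramified (U : Set (ValuationSubring F)) : IntermediateField F Ω :=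
  ⨅ W : {W : ValuationSubring Ω // W.comap (algebraMap F Ω) ∈ U},
    IntermediateField.fixedField (inertia F Ω W.1)

/-- `k̄ F`, the compositum of `F` and of the algebraic closure of `k` in `Ω`. -/
noncomputable def geomField : IntermediateField F Ω :=
  IntermediateField.adjoin F (algebraicClosure k Ω : Set Ω)

/-- The algebraic extension `L` of `K` in `Ω` is unramified at all valuation rings of `Ω` that
contain `k`: every nonzero element of `L` has the same valuation as an element of `K`.  (If `K` is
a function field of one variable over the algebraic closure of `k` and `k` has characteristic zero,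
then this says that `L/K` is unramified over all points of the smooth projective curve.) -/
def Unramified {k K Ω : Type} [Field k] [Field K] [Field Ω] [Algebra k Ω] [Algebra K Ω]
    (L : IntermediateField K Ω) : Prop :=
  ∀ W : ValuationSubring Ω, (∀ c : k, algebraMap k Ω c ∈ W) → ∀ z ∈ L, z ≠ 0 →
    ∃ t : K, t ≠ 0 ∧ z / algebraMap K Ω t ∈ W ∧ (z / algebraMap K Ω t)⁻¹ ∈ W

/-- `L/K` is a finite Galois extension whose degree is a power of `ℓ`. -/
def FiniteProEll (ℓ : ℕ) {K Ω : Type} [Field K] [Field Ω] [Algebra K Ω]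
    (L : IntermediateField K Ω) : Prop :=
  FiniteDimensional K L ∧ IsGalois K L ∧ ∃ m : ℕ, Module.finrank K L = ℓ ^ m

/-- The maximal unramified pro-`ℓ` extension of `K` in `Ω`: the compositum of the finite Galois
extensions of `K` whose degree is a power of `ℓ` and which are unramified. -/
noncomputable def maxProEll (ℓ : ℕ) (k K Ω : Type) [Field k] [Field K] [Field Ω] [Algebra k Ω]
    [Algebra K Ω] : IntermediateField K Ω :=
  ⨆ L : {L : IntermediateField K Ω // FiniteProEll ℓ L ∧ Unramified (k := k) L}, L.1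

/-- `M`, the maximal unramified pro-`ℓ` extension of `k̄ F` in `Ω`, as an extension of `F`.  If `F` is
the function field of the smooth projective curve `C`, then `Gal(M/F)` is the geometrically pro-`ℓ`
fundamental group of `C`. -/
noncomputable def proEllField : IntermediateField F Ω :=
  (maxProEll ℓ k (geomField k F Ω) Ω).restrictScalars F

/-- The map `τ : M → M` acts as `σ : K → K` on the elements that the fields `K` and `M` have in
common when they are regarded as subfields of `Ω` through `i` and `j`. -/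
def ActsAs {K M Ω : Type} [Field K] [Field M] [Field Ω] (i : K →+* Ω) (j : M →+* Ω) (σ : K → K)
    (τ : M → M) : Prop :=
  ∀ c z, j z = i c → j (τ z) = i (σ c)

/-- Let `k ⊆ K ⊆ Ω` and `F ⊆ N ⊆ Ω` be fields.  A splitting of `Gal(N/F) → Gal(K/k)`: a continuous
homomorphism `s` from `Gal(K/k)` to `Gal(N/F)` such that `s(σ)` acts as `σ` on the elements of
`K ∩ N`. -/
structure Splitting (K N : Type) [Field K] [Field N] [Algebra k K] [Algebra F N] [Algebra K Ω]
    [Algebra N Ω] where
  /-- the homomorphism `Gal(K/k) → Gal(N/F)` -/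
  toHom : (K ≃ₐ[k] K) →* (N ≃ₐ[F] N)
  cont : Continuous toHom
  compat : ∀ σ : K ≃ₐ[k] K, ActsAs (algebraMap K Ω) (algebraMap N Ω) σ (toHom σ)

end definitions

section curves

/-- `F = k(x, y)` is the function field of the curve `b y^ℓ = g(a x^m)`. -/
def IsFunctionField {k F : Type} [Field k] [Field F] [Algebra k F] (ℓ m : ℕ) (g : k[X]) (a b : k)
    (x y : F) : Prop :=
  Transcendental k x ∧ algebraMap k F b * y ^ ℓ = aeval (algebraMap k F a * x ^ m) g ∧
    IntermediateField.adjoin k {x, y} = (⊤ : IntermediateField k F)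

/-- Let `F` be the function field of the smooth projective curve `C : b y^ℓ = g(a x^m)` over `K`, let
`Ω` be an algebraic closure of `F` and let `K̄` be the algebraic closure of `K` in `Ω`.  There is no
section `G_K → Gal(M/F)` of the geometrically pro-`ℓ` fundamental group of `C`, and for every set `U`
of valuation rings of `F` over `K` there is no section `G_K → Gal(F_U/F)`.  Such `U` are given by `C`
and all its open subcurves. -/
def NoSections {K : Type} [Field K] (ℓ m : ℕ) (g : K[X]) (a b : K) : Prop :=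
  ∀ (F Ω : Type) [Field F] [Field Ω] [Algebra K F] [Algebra F Ω] [Algebra K Ω]
    [IsScalarTower K F Ω] [IsAlgClosure F Ω] (x y : F), IsFunctionField ℓ m g a b x y →
    IsEmpty (Splitting K F Ω (algebraicClosure K Ω) (proEllField ℓ K F Ω)) ∧
    ∀ U : Set (ValuationSubring F), (∀ O ∈ U, ∀ c : K, algebraMap K F c ∈ O) →
      IsEmpty (Splitting K F Ω (algebraicClosure K Ω) (unramified F Ω U))

/-- The smooth projective curve `b y^ℓ = g(a x^m)`, where `ℓ` divides `m`, has a rational point: a
point in the affine part, or a point at infinity.  The points at infinity correspond to the values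
`z` of the function `y / x^(m deg g / ℓ)`, with `b z^ℓ = lc(g) a^(deg g)`. -/
def HasRationalPoint (ℓ m : ℕ) (g : ℤ[X]) (a b : ℤ) : Prop :=
  (∃ x y : ℚ, b * y ^ ℓ = aeval (a * x ^ m) g) ∨
    ∃ z : ℚ, b * z ^ ℓ = g.leadingCoeff * (a : ℚ) ^ g.natDegree

end curves

section density

/-- `E` has density zero: for `N → ∞` it contains `o(N)` of the natural numbers `n ∈ (N, 2N]`. -/
def Null (E : Set ℕ) : Prop :=
  ∀ ε : ℝ, 0 < ε → ∃ N₀ : ℕ, ∀ N : ℕ, N₀ ≤ N →
    ({n : ℕ | N < n ∧ n ≤ 2 * N ∧ n ∈ E}.ncard : ℝ) ≤ ε * N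

/-- `E` has density zero in the primes: for `N → ∞` the proportion of the primes in `(N, 2N]` which
are in `E` tends to `0`. -/
def NullInPrimes (E : Set ℕ) : Prop :=
  ∀ ε : ℝ, 0 < ε → ∃ N₀ : ℕ, ∀ N : ℕ, N₀ ≤ N →
    ({p : ℕ | p.Prime ∧ N < p ∧ p ≤ 2 * N ∧ p ∈ E}.ncard : ℝ) ≤
      ε * ({p : ℕ | p.Prime ∧ N < p ∧ p ≤ 2 * N}.ncard : ℝ)

/-- `∑ i ∈ I, α i * t ^ i` is a generalised polynomial with leading exponent `θ`, which is positive
and not an integer, and with positive leading coefficient. -/
def Admissible (I : Finset ℝ) (α : ℝ → ℝ) (θ : ℝ) : Prop :=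
  θ ∈ I ∧ (∀ i ∈ I, i ≤ θ) ∧ 0 < θ ∧ (∀ m : ℕ, θ ≠ m) ∧ 0 < α θ

/-- The integral part of the value at `n` of the generalised polynomial `∑ i ∈ I, α i * t ^ i`. -/
noncomputable def value (I : Finset ℝ) (α : ℝ → ℝ) (n : ℕ) : ℤ := ⌊∑ i ∈ I, α i * (n : ℝ) ^ i⌋

end density

lemma iSup_congr_prop {α : Type} [CompleteLattice α] {P Q : α → Prop} (h : ∀ L, P L ↔ Q L) :
    (⨆ L : {L // P L}, L.1) = ⨆ L : {L // Q L}, L.1 := by
  have h1 : P = Q := funext fun L => propext (h L)
  subst h1
  rfl

lemma proEll_eq (ℓ : ℕ) (k F Ω : Type) [Field k] [Field F] [Field Ω] [Algebra k F] [Algebra F Ω]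
    [Algebra k Ω] : proEllField ℓ k F Ω = Pool.Agent.Y157.PS.geomPro ℓ k F Ω := by
  unfold proEllField Pool.Agent.Y157.PS.geomPro maxProEll Pool.Agent.Y157.PS.maxPro
  congr 1
  refine iSup_congr_prop fun L => ?_
  constructor
  · rintro ⟨⟨h1, h2, h3⟩, h4⟩
    refine ⟨⟨h1, h2, h3⟩, fun W hW z hz hz0 => ?_⟩
    obtain ⟨t, ht, h5, h6⟩ := h4 W hW z hz hz0
    exact ⟨t, ht, div_ne_zero hz0 ((_root_.map_ne_zero _).2 ht), h5, h6⟩
  · rintro ⟨⟨h1, h2, h3⟩, h4⟩
    refine ⟨⟨h1, h2, h3⟩, fun W hW z hz hz0 => ?_⟩
    obtain ⟨t, ht, -, h5, h6⟩ := h4 W hW z hz hz0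
    exact ⟨t, ht, h5, h6⟩

/-- the local obstruction at `p` -/
lemma noSections_of {K : Type} [Field K] [NumberField K] {ℓ j p : ℕ} [Fact ℓ.Prime] (hj : 1 ≤ j)
    (g : ℤ[X]) (b : ℤ) (h3 : 3 ≤ ℓ ^ j * g.natDegree) (hg : Pool.Agent.N680.TH.GoodP ℓ j g b p)
    (hK : ¬ ℓ ∣ Module.finrank ℚ K) (a : ℤ) (ha : Pool.Agent.N680.TH.Once p a) :
    NoSections ℓ (ℓ ^ j) (g.map (Int.castRingHom K)) (a : K) (b : K) := by
  intro F Ω _ _ _ _ _ _ _ x y hxyF
  obtain ⟨hx, hxy, hF⟩ := hxyF
  have hcl : IsAlgClosed Ω := IsAlgClosure.isAlgClosed F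
  have halg : Algebra.IsAlgebraic F Ω := IsAlgClosure.isAlgebraic
  have h3' : 3 ≤ (expand ℤ (ℓ ^ j) g).natDegree := by
    rw [natDegree_expand, mul_comm]
    exact h3
  have hb : b ≠ 0 := by
    intro h
    apply hg.pb
    rw [h]
    exact dvd_zero _
  have hFx := Pool.Agent.R925.L.alg_eqn (Fact.out : ℓ.Prime).pos _ _ _
    (Int.cast_ne_zero.2 hb : (b : K) ≠ 0) x y hxy hF
  have hle : ∀ U : Set (ValuationSubring F), (∀ O ∈ U, ∀ c : K, algebraMap K F c ∈ O) →
      Pool.Agent.Y157.PS.geomPro ℓ K F Ω ≤ unramified F Ω U := fun U hU =>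
    (Pool.Agent.Y157.PS.a_ind ℓ K F Ω x hx hFx U hU).1
  refine ⟨⟨fun s => ?_⟩, fun U hU => ⟨fun s => ?_⟩⟩
  · exact Pool.Agent.N680.TH.no_section hj g b h3' hg hK a ha.1 ha.2 x y hx hxy hF _
      (proEll_eq ℓ K F Ω).ge s.toHom s.cont fun σ c z hz => s.compat σ c z hz
  · exact Pool.Agent.N680.TH.no_section hj g b h3' hg hK a ha.1 ha.2 x y hx hxy hF _
      (hle U hU) s.toHom s.cont fun σ c z hz => s.compat σ c z hz

/-- a rational point with `x = 0` -/
lemma point_zero {ℓ m : ℕ} (hℓ : 0 < ℓ) (hm : 0 < m) (g : ℤ[X]) (b : ℤ) (hb : b ≠ 0) (c : ℤ)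
    (hc : c ^ ℓ = g.coeff 0 * b ^ (ℓ - 1)) (a : ℤ) : HasRationalPoint ℓ m g a b := by
  left
  have hbQ : (b : ℚ) ≠ 0 := Int.cast_ne_zero.2 hb
  refine ⟨0, c / b, ?_⟩
  have h1 : aeval ((a : ℚ) * 0 ^ m) g = (g.coeff 0 : ℚ) := by
    rw [zero_pow hm.ne', mul_zero, aeval_def, eval₂_at_zero]
    simp
  obtain ⟨l, rfl⟩ : ∃ l, ℓ = l + 1 := ⟨ℓ - 1, by omega⟩
  have h2 : (c : ℚ) ^ (l + 1) = g.coeff 0 * (b : ℚ) ^ l := by
    rw [Nat.add_sub_cancel] at hc
    exact_mod_cast hc
  rw [h1, div_pow, h2, pow_succ]
  field_simp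

/-- a rational point at infinity -/
lemma point_inf {ℓ m : ℕ} (hℓ : 0 < ℓ) (g : ℤ[X]) (b : ℤ) (hb : b ≠ 0) (hd : ℓ ∣ g.natDegree) (c : ℤ)
    (hc : c ^ ℓ = g.leadingCoeff * b ^ (ℓ - 1)) (a : ℤ) : HasRationalPoint ℓ m g a b := by
  right
  have hbQ : (b : ℚ) ≠ 0 := Int.cast_ne_zero.2 hb
  obtain ⟨d, hd⟩ := hd
  refine ⟨c / b * a ^ d, ?_⟩
  rw [mul_pow, ← pow_mul, mul_comm d ℓ, ← hd]
  obtain ⟨l, rfl⟩ : ∃ l, ℓ = l + 1 := ⟨ℓ - 1, by omega⟩
  have h2 : (c : ℚ) ^ (l + 1) = g.leadingCoeff * (b : ℚ) ^ l := by
    rw [Nat.add_sub_cancel] at hc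
    exact_mod_cast hc
  rw [div_pow, h2, pow_succ]
  field_simp

/-- **Thin families of twists.**  Let `a(n)` be the integral part of the value at `n` of a generalised
polynomial whose leading exponent is positive and not an integer, with positive leading
coefficient.  There is a set `E` of density zero in the natural numbers and in the primes, such that
the following is true for all primes `ℓ`, all `m = ℓ^j` with `j ≥ 1`, all integers `b ≠ 0` and all
polynomials `g` with integral coefficients such that `g(x^m)` has no multiple roots and degree at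
least 3: either all the curves `b y^ℓ = g(a x^m)`, `a ≠ 0`, have a rational point, or for all `n ∉ E`
with finitely many exceptions there are no sections for the curve `b y^ℓ = g(a(n) x^m)` over any
number field `K` of degree prime to `ℓ`. -/
theorem result (I : Finset ℝ) (α : ℝ → ℝ) (θ : ℝ) (h : Admissible I α θ) :
    ∃ E : Set ℕ, Null E ∧ NullInPrimes E ∧
      ∀ (ℓ : ℕ) [Fact ℓ.Prime] (j : ℕ) (g : ℤ[X]) (b : ℤ), 1 ≤ j → b ≠ 0 →
        ((expand ℤ (ℓ ^ j) g).map (Int.castRingHom ℚ)).Separable → 3 ≤ ℓ ^ j * g.natDegree →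
        (∀ a : ℤ, a ≠ 0 → HasRationalPoint ℓ (ℓ ^ j) g a b) ∨
        {n : ℕ | n ∉ E ∧ ¬ ∀ (K : Type) [Field K] [NumberField K], ¬ ℓ ∣ Module.finrank ℚ K →
          NoSections ℓ (ℓ ^ j) (g.map (Int.castRingHom K)) (value I α n : K) (b : K)}.Finite := by
  classical
  obtain ⟨E, h1, h2, h3⟩ := Pool.Agent.N680.TH.fin h
  refine ⟨E, ?_, ?_, ?_⟩
  · intro ε hε
    obtain ⟨N₀, hN₀⟩ := h1 ε hε
    refine ⟨N₀, fun N hN => ?_⟩
    have h4 := hN₀ N hN
    have e1 : {n : ℕ | N < n ∧ n ≤ 2 * N ∧ n ∈ E} = {t : ℕ | t ∈ Finset.Ioc N (2 * N) ∧ t ∈ E} := by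
      ext t
      simp only [Set.mem_ofPred_eq, Finset.mem_Ioc]
      tauto
    have e2 : (Finset.Ioc N (2 * N)).card = N := by
      rw [Nat.card_Ioc]
      omega
    rw [e1]
    rwa [e2] at h4
  · intro ε hε
    obtain ⟨N₀, hN₀⟩ := h2 ε hε
    refine ⟨N₀, fun N hN => ?_⟩
    have h4 := hN₀ N hN
    have e0 : ∀ t, t ∈ Pool.Agent.N666.VE.primes N ↔ t.Prime ∧ N < t ∧ t ≤ 2 * N := by
      intro t
      unfold Pool.Agent.N666.VE.primes
      rw [Finset.mem_filter, Finset.mem_Ioc]
      tauto
    have e1 : {p : ℕ | p.Prime ∧ N < p ∧ p ≤ 2 * N ∧ p ∈ E} =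
        {t : ℕ | t ∈ Pool.Agent.N666.VE.primes N ∧ t ∈ E} := by
      ext t
      simp only [Set.mem_ofPred_eq, e0]
      tauto
    have e2 : {p : ℕ | p.Prime ∧ N < p ∧ p ≤ 2 * N} = ↑(Pool.Agent.N666.VE.primes N) := by
      ext t
      simp only [Set.mem_ofPred_eq, Finset.mem_coe, e0]
    rw [e1, e2, Set.ncard_coe_finset]
    exact h4
  · intro ℓ hℓF j g b hj hb hsep hdeg
    have hℓ : ℓ.Prime := Fact.out
    by_cases hn0 : ∀ c : ℤ, c ^ ℓ ≠ g.coeff 0 * b ^ (ℓ - 1)
    · by_cases hn1 : ℓ ∣ g.natDegree → ∀ c : ℤ, c ^ ℓ ≠ g.leadingCoeff * b ^ (ℓ - 1)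
      · right
        have hg0 : g ≠ 0 := by
          rintro rfl
          rw [natDegree_zero, mul_zero] at hdeg
          omega
        refine (h3 ℓ j g b ⟨hℓ, hsep, hb, hg0, hn0, hn1⟩).subset ?_
        rintro n ⟨hn, hn'⟩
        refine ⟨hn, ?_⟩
        rintro ⟨p, hgood, honce⟩
        exact hn' fun K _ _ hK => noSections_of hj g b hdeg hgood hK _ honce
      · left
        push Not at hn1
        obtain ⟨hd, c, hc⟩ := hn1
        exact fun a _ => point_inf hℓ.pos g b hb hd c hc a
    · left
      push Not at hn0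
      obtain ⟨c, hc⟩ := hn0
      exact fun a _ => point_zero hℓ.pos (pow_pos hℓ.pos j) g b hb c hc a

end Pool.Agent.Results.MP_c1dca2_ag.ThinTwists
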